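import Mathlib
import Pool.Agent.Q158.SpongeA
import Pool.Agent.Q158.SpongeB
import Pool.Agent.Q158.SpongeC

set_option autoImplicit false

open Set Filter Topology ENNReal MeasureTheory
open Pool.Agent.Q158.Sponge

namespace Pool.Agent.Results.MP_ecd4e3_gt.SpongeEmbedding

/-- Euclidean `n`-space -/
abbrev E (n : ℕ) := EuclideanSpace ℝ (Fin n)

/-- `f` restricted to `U` is an embedding (a homeomorphism onto its image) into the closed unit
ball which does not shorten any rectifiable curve of `U`.  A curve is a map `γ` continuous on a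
compact interval, its length is the variation of `γ` on that interval, and it is rectifiable if
its length is finite. -/
def IsLengthIncreasingEmbedding {n : ℕ} (U : Set (E n)) (f : E n → E n) : Prop :=
  IsEmbedding (U.domRestrict f) ∧ MapsTo f U (Metric.closedBall 0 1) ∧
    ∀ (a b : ℝ) (γ : ℝ → E n), ContinuousOn γ (Icc a b) → MapsTo γ (Icc a b) U →
      eVariationOn γ (Icc a b) ≠ ⊤ →
      eVariationOn γ (Icc a b) ≤ eVariationOn (f ∘ γ) (Icc a b)

/-! ### Dimension at least two -/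

/-- the squeezed coordinates -/
noncomputable def sq {m : ℕ} (x : E (m + 2)) : Fin (m + 2) → ℝ := fun i => Real.arctan (x i)

/-- the map of `ℝ^(m+2)` into its unit ball -/
noncomputable def wild (m : ℕ) (x : E (m + 2)) : E (m + 2) :=
  WithLp.toLp 2 (fun i => (1 / (4 * (m + 2) : ℝ)) * F (sq x) i)

lemma isEmbedding_arctan : IsEmbedding Real.arctan := by
  apply Real.arctan_strictMono.isEmbedding_of_ordConnected
  rw [Real.range_arctan]
  exact ordConnected_Ioo

lemma lipschitz_arctan : LipschitzWith 1 Real.arctan := by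
  apply lipschitzWith_of_nnnorm_deriv_le Real.differentiable_arctan
  intro x
  rw [Real.deriv_arctan]
  rw [← NNReal.coe_le_coe, coe_nnnorm, Real.norm_of_nonneg (by positivity)]
  simp only [NNReal.coe_one]
  rw [div_le_one (by positivity)]
  nlinarith [sq_nonneg x]

lemma isEmbedding_sq {m : ℕ} : IsEmbedding (sq (m := m)) := by
  have h1 : IsEmbedding (Pi.map (fun (_ : Fin (m + 2)) => Real.arctan)) :=
    IsEmbedding.piMap fun _ => isEmbedding_arctan
  have h2 : IsEmbedding (WithLp.ofLp : E (m + 2) → (Fin (m + 2) → ℝ)) :=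
    (PiLp.homeomorph 2 (fun _ : Fin (m + 2) => ℝ)).isEmbedding
  exact h1.comp h2

lemma isEmbedding_wild (m : ℕ) : IsEmbedding (wild m) := by
  have hc : (1 / (4 * (m + 2) : ℝ)) ≠ 0 := by positivity
  have h2 : IsEmbedding (WithLp.toLp 2 : (Fin (m + 2) → ℝ) → E (m + 2)) :=
    (PiLp.homeomorph 2 (fun _ : Fin (m + 2) => ℝ)).symm.isEmbedding
  have h3 : IsEmbedding (fun y : Fin (m + 2) → ℝ => (1 / (4 * (m + 2) : ℝ)) • y) :=
    (Homeomorph.smulOfNeZero _ hc).isEmbedding
  exact h2.comp (h3.comp (isEmbedding_F.comp isEmbedding_sq))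

lemma abs_F_le {m : ℕ} (x : E (m + 2)) (i : Fin (m + 2)) : |F (sq x) i| ≤ 4 := by
  have hA : ∀ j, |sq x j| ≤ 2 := by
    intro j
    have h1 := Real.arctan_lt_pi_div_two (x j)
    have h2 := Real.neg_pi_div_two_lt_arctan (x j)
    have h3 := Real.pi_le_four
    rw [abs_le]
    constructor
    · show -2 ≤ Real.arctan (x j); linarith
    · show Real.arctan (x j) ≤ 2; linarith
  have key : ∀ u v : ℝ, |u| ≤ 2 → |u - w v| ≤ 4 := by
    intro u v hu
    have h1 := abs_w_le v
    have h2 := abs_sub u (w v)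
    linarith
  unfold F
  split_ifs
  · exact key _ _ (hA _)
  · exact key _ _ (hA _)
  · exact key _ _ (hA _)

lemma wild_mem (m : ℕ) (x : E (m + 2)) : wild m x ∈ Metric.closedBall (0 : E (m + 2)) 1 := by
  rw [mem_closedBall_zero_iff, EuclideanSpace.norm_eq]
  apply Real.sqrt_le_one.mpr
  have hterm : ∀ i : Fin (m + 2), ‖wild m x i‖ ^ 2 ≤ 1 / ((m : ℝ) + 2) ^ 2 := by
    intro i
    have h1 := abs_F_le x i
    have h2 : ‖wild m x i‖ ≤ 1 / ((m : ℝ) + 2) := by
      show |(1 / (4 * (m + 2) : ℝ)) * F (sq x) i| ≤ _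
      rw [abs_mul, abs_of_nonneg (by positivity)]
      calc (1 / (4 * (m + 2) : ℝ)) * |F (sq x) i| ≤ (1 / (4 * (m + 2) : ℝ)) * 4 := by
            apply mul_le_mul_of_nonneg_left h1 (by positivity)
        _ = 1 / ((m : ℝ) + 2) := by field_simp
    calc ‖wild m x i‖ ^ 2 ≤ (1 / ((m : ℝ) + 2)) ^ 2 := by
          apply pow_le_pow_left₀ (norm_nonneg _) h2
      _ = _ := by rw [div_pow, one_pow]
  calc ∑ i, ‖wild m x i‖ ^ 2 ≤ ∑ _i : Fin (m + 2), 1 / ((m : ℝ) + 2) ^ 2 :=
        Finset.sum_le_sum fun i _ => hterm i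
    _ = ((m : ℝ) + 2) * (1 / ((m : ℝ) + 2) ^ 2) := by simp
    _ = 1 / ((m : ℝ) + 2) := by field_simp
    _ ≤ 1 := by
        rw [div_le_one (by positivity)]
        have : (0 : ℝ) ≤ m := Nat.cast_nonneg m
        linarith

lemma eVar_coord_ne_top {n : ℕ} {γ : ℝ → E n} {a b : ℝ} (h : eVariationOn γ (Icc a b) ≠ ⊤)
    (i : Fin n) : eVariationOn (fun r => γ r i) (Icc a b) ≠ ⊤ := by
  have hl : LipschitzWith 1 (fun x : E n => x i) := by
    apply LipschitzWith.of_dist_le_mul
    intro x y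
    rw [NNReal.coe_one, one_mul, Real.dist_eq, EuclideanSpace.dist_eq, ← Real.dist_eq]
    apply Real.le_sqrt_of_sq_le
    exact Finset.single_le_sum (f := fun j => dist (x j) (y j) ^ 2) (fun j _ => sq_nonneg _)
      (Finset.mem_univ i)
  have := (hl.lipschitzOnWith (s := univ)).comp_eVariationOn_le (f := fun x : E n => x i)
    (g := γ) (s := Icc a b) (fun _ _ => mem_univ _)
  refine ne_top_of_le_ne_top ?_ this
  simpa using h

/-- the image of a nonconstant rectifiable curve is not rectifiable -/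
lemma wild_curve (m : ℕ) {γ : ℝ → E (m + 2)} {a b : ℝ} (hγ : ContinuousOn γ (Icc a b))
    (h : eVariationOn γ (Icc a b) ≠ ⊤) (h2 : eVariationOn (wild m ∘ γ) (Icc a b) ≠ ⊤) :
    ∀ s ∈ Icc a b, ∀ t ∈ Icc a b, γ s = γ t := by
  have hz : ContinuousOn (fun r => sq (γ r)) (Icc a b) :=
    isEmbedding_sq.continuous.comp_continuousOn hγ
  have h1 : ∀ i, eVariationOn (fun r => sq (γ r) i) (Icc a b) ≠ ⊤ := by
    intro i
    have h3 := (lipschitz_arctan.lipschitzOnWith (s := univ)).comp_eVariationOn_le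
      (g := fun r => γ r i) (s := Icc a b) (fun _ _ => mem_univ _)
    refine ne_top_of_le_ne_top ?_ h3
    simpa using eVar_coord_ne_top h i
  have h3 : ∀ i, eVariationOn (fun r => F (sq (γ r)) i) (Icc a b) ≠ ⊤ := by
    intro i
    have h4 := eVar_coord_ne_top h2 i
    have hl : LipschitzWith (Real.toNNReal (4 * (m + 2))) (fun x : ℝ => (4 * (m + 2) : ℝ) * x) := by
      apply LipschitzWith.of_dist_le_mul
      intro x y
      rw [Real.coe_toNNReal _ (by positivity), Real.dist_eq, Real.dist_eq, ← mul_sub, abs_mul,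
        abs_of_nonneg (by positivity : (0:ℝ) ≤ 4 * (m + 2))]
    have h5 := (hl.lipschitzOnWith (s := univ)).comp_eVariationOn_le
      (g := fun r => (wild m ∘ γ) r i) (s := Icc a b) (fun _ _ => mem_univ _)
    refine ne_top_of_le_ne_top (ENNReal.mul_ne_top
      (ENNReal.coe_ne_top (r := Real.toNNReal (4 * (m + 2)))) h4) ?_
    refine le_trans (le_of_eq ?_) h5
    apply eVariationOn.congr
    intro r _
    show F (sq (γ r)) i = (4 * (m + 2) : ℝ) * ((1 / (4 * (m + 2) : ℝ)) * F (sq (γ r)) i)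
    field_simp
  intro s hs t ht
  exact isEmbedding_sq.injective (const_of_F hz h1 h3 s hs t ht)

/-! ### Dimension one -/

/-- the point of `E 1` with coordinate `t` -/
noncomputable def ι (t : ℝ) : E 1 := WithLp.toLp 2 (fun _ => t)

lemma dist_E1 (x y : E 1) : dist x y = |x 0 - y 0| := by
  rw [EuclideanSpace.dist_eq]
  simp [Real.dist_eq, Real.sqrt_sq_eq_abs]

lemma ι_coord (x : E 1) : ι (x 0) = x := by
  ext i
  have : i = 0 := Subsingleton.elim _ _
  subst this
  rfl

lemma continuous_ι : Continuous ι := by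
  unfold ι
  fun_prop

lemma volume_preimage (U : Set (E 1)) (hU : IsOpen U) : volume (ι ⁻¹' U) = volume U := by
  have h1 := (volume_preserving_funUnique (Fin 1) ℝ).symm
  have h2 := (PiLp.volume_preserving_toLp (Fin 1)).comp h1
  have h3 := h2.measure_preimage hU.measurableSet.nullMeasurableSet
  rw [← h3]
  rfl

lemma dim_one (U : Set (E 1)) (hU : IsOpen U) (hvol : volume U ≤ ENNReal.ofReal 1) :
    ∃ f : E 1 → E 1, IsLengthIncreasingEmbedding U f := by
  set V : Set ℝ := ι ⁻¹' U with hVdef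
  have hVo : IsOpen V := hU.preimage continuous_ι
  have hvV : volume V ≤ ENNReal.ofReal 1 := by rw [volume_preimage U hU]; exact hvol
  have hfin : volume V ≠ ⊤ := ne_top_of_le_ne_top ENNReal.ofReal_ne_top hvV
  have hmem : ∀ x : E 1, x ∈ U ↔ x 0 ∈ V := by
    intro x
    rw [hVdef, mem_preimage, ι_coord]
  let f : E 1 → E 1 := fun x => ι (F1 V (x 0))
  have hfd : ∀ x y, dist (f x) (f y) = |F1 V (x 0) - F1 V (y 0)| := fun x y => dist_E1 _ _
  refine ⟨f, ?_, ?_, ?_⟩
  · -- embedding
    have hcont : Continuous f := by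
      apply LipschitzWith.continuous (K := 1)
      apply LipschitzWith.of_dist_le_mul
      intro x y
      rw [hfd, dist_E1, NNReal.coe_one, one_mul]
      exact F1_lipschitz hVo.measurableSet hfin _ _
    have hloc : ∀ x : U, ∀ r > 0, ∃ δ > 0, ∀ y : U, dist (U.domRestrict f y) (U.domRestrict f x) < δ →
        dist y x < r := by
      intro x r hr
      obtain ⟨δ, hδ, h⟩ := F1_local hVo hfin ((hmem x.1).mp x.2) hr
      refine ⟨δ, hδ, fun y hy => ?_⟩
      rw [Subtype.dist_eq, dist_E1]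
      apply h
      rw [← hfd]
      exact hy
    refine ⟨?_, ?_⟩
    · rw [isInducing_iff_nhds]
      intro x
      apply le_antisymm
      · exact (hcont.continuousOn.domRestrict).continuousAt.tendsto.le_comap
      · intro s hs
        obtain ⟨r, hr, hrs⟩ := Metric.mem_nhds_iff.mp hs
        obtain ⟨δ, hδ, h⟩ := hloc x r hr
        rw [Filter.mem_comap]
        refine ⟨Metric.ball (U.domRestrict f x) δ, Metric.ball_mem_nhds _ hδ, fun y hy => hrs ?_⟩
        exact h y hy
    · intro x y hxy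
      by_contra hne
      have hpos : 0 < dist y x := dist_pos.mpr (Ne.symm hne)
      obtain ⟨δ, hδ, h⟩ := hloc x _ hpos
      have := h y (by rw [hxy, dist_self]; exact hδ)
      exact lt_irrefl _ this
  · intro x _
    rw [mem_closedBall_zero_iff]
    have h0 : ‖f x‖ = |F1 V (x 0)| := by
      have := dist_E1 (f x) 0
      rw [dist_zero_right] at this
      rw [this]
      show |F1 V (x 0) - 0| = _
      rw [sub_zero]
    have hnn : 0 ≤ F1 V (x 0) := ENNReal.toReal_nonneg
    rw [h0, abs_of_nonneg hnn]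
    unfold F1
    have h1 : volume (V ∩ Iio (x 0)) ≤ ENNReal.ofReal 1 := (measure_mono inter_subset_left).trans hvV
    calc (volume (V ∩ Iio (x 0))).toReal ≤ (ENNReal.ofReal 1).toReal :=
          ENNReal.toReal_mono ENNReal.ofReal_ne_top h1
      _ = 1 := ENNReal.toReal_ofReal (by norm_num)
  · intro a b γ hγ hγU _
    have hc : ContinuousOn (fun r => γ r 0) (Icc a b) := by
      have h0 : Continuous (fun x : E 1 => x 0) := by fun_prop
      exact h0.comp_continuousOn hγ
    have key : ∀ s ∈ Icc a b, ∀ t ∈ Icc a b, edist (γ s) (γ t) = edist (f (γ s)) (f (γ t)) := by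
      intro s hs t ht
      rw [edist_dist, edist_dist, hfd, dist_E1]
      have hst : uIcc s t ⊆ Icc a b := ordConnected_Icc.uIcc_subset hs ht
      have h1 : uIcc (γ s 0) (γ t 0) ⊆ V := by
        intro v hv
        obtain ⟨r, hr, hrv⟩ := intermediate_value_uIcc (hc.mono hst) hv
        have h2 := hγU (hst hr)
        rw [hmem] at h2
        simp only at hrv
        rwa [hrv] at h2
      rw [F1_abs_eq hVo.measurableSet hfin h1]
    unfold eVariationOn
    refine iSup_mono fun p => Finset.sum_le_sum fun i _ => ?_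
    exact (key _ (p.2.2.2 _) _ (p.2.2.2 _)).le

/-- **Guth's sponge problem**, with embeddings and rectifiable curves as in the problem file. -/
theorem result :
    (∀ n : ℕ, 1 ≤ n → ∃ ε : ℝ, 0 < ε ∧ ∀ U : Set (E n), IsOpen U →
      volume U ≤ ENNReal.ofReal ε → ∃ f : E n → E n, IsLengthIncreasingEmbedding U f) ∧
    (∀ n : ℕ, 2 ≤ n → ∃ f : E n → E n, IsEmbedding f ∧ (∀ x, f x ∈ Metric.closedBall 0 1) ∧
      ∀ (a b : ℝ) (γ : ℝ → E n), ContinuousOn γ (Icc a b) → eVariationOn γ (Icc a b) ≠ ⊤ →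
        (∃ s ∈ Icc a b, ∃ t ∈ Icc a b, γ s ≠ γ t) →
        eVariationOn (f ∘ γ) (Icc a b) = ⊤) := by
  have h2 : ∀ n : ℕ, 2 ≤ n → ∃ f : E n → E n, IsEmbedding f ∧
      (∀ x, f x ∈ Metric.closedBall 0 1) ∧
      ∀ (a b : ℝ) (γ : ℝ → E n), ContinuousOn γ (Icc a b) → eVariationOn γ (Icc a b) ≠ ⊤ →
        (∃ s ∈ Icc a b, ∃ t ∈ Icc a b, γ s ≠ γ t) →
        eVariationOn (f ∘ γ) (Icc a b) = ⊤ := by
    intro n hn
    obtain ⟨m, rfl⟩ := Nat.exists_eq_add_of_le' hn
    refine ⟨wild m, isEmbedding_wild m, wild_mem m, ?_⟩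
    intro a b γ hγ h1 hne
    by_contra hcon
    obtain ⟨s, hs, t, ht, hst⟩ := hne
    exact hst (wild_curve m hγ h1 hcon s hs t ht)
  refine ⟨?_, h2⟩
  intro n hn
  rcases Nat.lt_or_ge n 2 with hlt | hge
  · have : n = 1 := by omega
    subst this
    exact ⟨1, one_pos, fun U hU hvol => dim_one U hU hvol⟩
  · obtain ⟨f, hf, hmem, hlen⟩ := h2 n hge
    refine ⟨1, one_pos, fun U _ _ => ⟨f, ?_, fun x _ => hmem x, ?_⟩⟩
    · exact hf.comp IsEmbedding.subtypeVal
    · intro a b γ hγ _ hfin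
      by_cases hne : ∃ s ∈ Icc a b, ∃ t ∈ Icc a b, γ s ≠ γ t
      · rw [hlen a b γ hγ hfin hne]
        exact le_top
      · push Not at hne
        rw [eVariationOn.constant_on]
        · exact bot_le
        · rintro _ ⟨s, hs, rfl⟩ _ ⟨t, ht, rfl⟩
          exact hne s hs t ht

end Pool.Agent.Results.MP_ecd4e3_gt.SpongeEmbedding
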